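import Pool.Agent.H43R3.SN.StmtsA

/-! Task EXC of project H43-SN (MP_daf980_lc). -/

set_option autoImplicit false

open Finset

namespace Pool.Agent.H43R3.SN

theorem taskEXC : TaskEXC := by
  intro V _ _ G _ D s l hD hn hl u v w huv hw
  obtain ⟨hinj, hpos, hadj, hiso⟩ := hl
  -- the bad set of a pair
  have hbad : ∀ a c : V, (univ.filter (fun z => ¬ (G.Adj a z ∧ G.Adj c z))).card ≤ 2 * D + 2 := by
    intro a c
    have hsub : (univ.filter (fun z => ¬ (G.Adj a z ∧ G.Adj c z))) ⊆
        ({a} ∪ univ.filter (fun u => u ≠ a ∧ ¬ G.Adj a u)) ∪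
        ({c} ∪ univ.filter (fun u => u ≠ c ∧ ¬ G.Adj c u)) := by
      intro z hz
      simp only [mem_filter, mem_univ, true_and, mem_union, mem_singleton] at hz ⊢
      by_cases h1 : z = a
      · exact Or.inl (Or.inl h1)
      by_cases h2 : z = c
      · exact Or.inr (Or.inl h2)
      by_cases h3 : G.Adj a z
      · right; right
        exact ⟨h2, fun h4 => hz ⟨h3, h4⟩⟩
      · left; right
        exact ⟨h1, h3⟩
    have h1 := hD a
    have h2 := hD c
    have h3 := card_le_card hsub
    have h4 := card_union_le ({a} ∪ univ.filter (fun u => u ≠ a ∧ ¬ G.Adj a u))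
      ({c} ∪ univ.filter (fun u => u ≠ c ∧ ¬ G.Adj c u))
    have h5 := card_union_le {a} (univ.filter (fun u => u ≠ a ∧ ¬ G.Adj a u))
    have h6 := card_union_le {c} (univ.filter (fun u => u ≠ c ∧ ¬ G.Adj c u))
    rw [card_singleton] at h5 h6
    omega
  -- the step
  have hstep : ∀ u v w : V, G.Adj u v → l (Sum.inl w) = l (Sum.inl u) + l (Sum.inl v) →
      ∀ z, G.Adj u z → G.Adj w z → ∃ y : V, l (Sum.inl y) = l (Sum.inl u) + l (Sum.inl z) := by
    intro u v w huv hw z huz hwz
    obtain ⟨y, hy⟩ := (hadj u z huz.ne).1 huz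
    obtain ⟨y', hy'⟩ := (hadj w z hwz.ne).1 hwz
    cases y with
    | inl y₀ => exact ⟨y₀, hy⟩
    | inr i =>
      exfalso
      refine hiso (Sum.inl v) i (by simp) y' ?_
      rw [hy', hy, hw]
      ring
  -- the good vertices
  set Z := univ.filter (fun z => G.Adj u z ∧ G.Adj w z) with hZ
  have hZcard : Fintype.card V ≤ Z.card + (2 * D + 2) := by
    have h1 := card_filter_add_card_filter_not (s := (univ : Finset V))
      (fun z => G.Adj u z ∧ G.Adj w z)
    have h2 := hbad u w
    rw [card_univ] at h1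
    rw [hZ]
    omega
  have hZne : Z.Nonempty := by
    rw [← card_pos]
    omega
  obtain ⟨z, hzZ, hzmax⟩ := exists_max_image Z (fun z => l (Sum.inl z)) hZne
  simp only [hZ, mem_filter, mem_univ, true_and] at hzZ
  obtain ⟨y, hy⟩ := hstep u v w huv hw z hzZ.1 hzZ.2
  have hgood : ∀ z', G.Adj z z' → G.Adj y z' →
      ∃ y' : V, l (Sum.inl y') = l (Sum.inl z) + l (Sum.inl z') :=
    hstep z u y hzZ.1.symm (by rw [hy, add_comm])
  choose! f hf using hgood
  -- injection
  have hcard : (univ.filter (fun z' => G.Adj z z' ∧ G.Adj y z')).card ≤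
      (univ.filter (fun z' => ¬ (G.Adj u z' ∧ G.Adj w z'))).card := by
    apply card_le_card_of_injOn f
    · intro z' hz'
      simp only [coe_filter, mem_univ, true_and, Set.mem_ofPred_eq] at hz' ⊢
      intro hcon
      have h1 := hzmax (f z') (by simp only [hZ, mem_filter, mem_univ, true_and]; exact hcon)
      have h2 := hf z' hz'.1 hz'.2
      have h3 := hpos (Sum.inl z')
      have h4 : l (Sum.inl (f z')) ≤ l (Sum.inl z) := h1
      omega
    · intro a ha b hb hab
      simp only [coe_filter, mem_univ, true_and, Set.mem_ofPred_eq] at ha hb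
      have h1 := hf a ha.1 ha.2
      have h2 := hf b hb.1 hb.2
      rw [hab] at h1
      have h3 : l (Sum.inl a) = l (Sum.inl b) := by omega
      exact Sum.inl_injective (hinj h3)
  have h1 := card_filter_add_card_filter_not (s := (univ : Finset V))
      (fun z' => G.Adj z z' ∧ G.Adj y z')
  have h2 := hbad z y
  have h3 := hbad u w
  rw [card_univ] at h1
  omega

end Pool.Agent.H43R3.SN
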